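import Pool.Agent.H31.BOU.Targets1

/-!
# MP_352bb5_an, row LOG: the logarithmic sum over the grid
-/

set_option autoImplicit false

namespace Pool.Agent.H89.BOU

open Finset Pool.Agent.H31.BOU

/-- the representative of `a` modulo `p` close to `p θ` -/
noncomputable def kk (p : ℕ) (θ : ℝ) (a : ℕ) : ℤ := a - p * round ((a : ℝ) / p - θ)

/-- the distance -/
noncomputable def dd (p : ℕ) (θ : ℝ) (a : ℕ) : ℝ := (p : ℝ) * nd ((a : ℝ) / p - θ)

lemma dd_eq (p : ℕ) (hp : 0 < p) (θ : ℝ) (a : ℕ) : dd p θ a = |(kk p θ a : ℝ) - p * θ| := by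
  have hp' : (0 : ℝ) < p := by exact_mod_cast hp
  unfold dd nd kk
  rw [← abs_of_pos hp', ← abs_mul, abs_of_pos hp']
  refine congrArg abs ?_
  push_cast
  field_simp
  ring

lemma kk_inj (p : ℕ) (θ : ℝ) (a b : ℕ) (ha : a < p) (hb : b < p)
    (h : kk p θ a = kk p θ b) : a = b := by
  unfold kk at h
  have h1 : ((a : ℤ)) % p = (b : ℤ) % p := by
    have h2 : (a : ℤ) = b + p * (round ((a : ℝ) / p - θ) - round ((b : ℝ) / p - θ)) := by
      linear_combination h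
    rw [h2, Int.add_mul_emod_self_left]
  rw [Int.emod_eq_of_lt (by positivity) (by exact_mod_cast ha),
    Int.emod_eq_of_lt (by positivity) (by exact_mod_cast hb)] at h1
  exact_mod_cast h1

open Classical in
/-- the group of `a` -/
noncomputable def sg (p : ℕ) (θ : ℝ) (a : ℕ) : ℕ × Bool :=
  (⌊dd p θ a⌋₊, decide ((p : ℝ) * θ ≤ kk p θ a))

lemma dd_nonneg (p : ℕ) (θ : ℝ) (a : ℕ) : 0 ≤ dd p θ a :=
  mul_nonneg (Nat.cast_nonneg _) (abs_nonneg _)

lemma sg_inj (p : ℕ) (hp : 0 < p) (θ : ℝ) : Set.InjOn (sg p θ) (range p : Finset ℕ) := by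
  classical
  intro a ha b hb h
  rw [Finset.mem_coe, mem_range] at ha hb
  apply kk_inj p θ a b ha hb
  unfold sg at h
  rw [Prod.mk.injEq] at h
  obtain ⟨h1, h2⟩ := h
  rw [decide_eq_decide] at h2
  have a1 := Nat.floor_le (dd_nonneg p θ a)
  have a2 := Nat.lt_floor_add_one (dd p θ a)
  have b1 := Nat.floor_le (dd_nonneg p θ b)
  have b2 := Nat.lt_floor_add_one (dd p θ b)
  rw [← h1] at b1 b2
  have key : |(kk p θ a : ℝ) - kk p θ b| < 1 := by
    obtain ⟨q, hq⟩ : ∃ q : ℝ, (⌊dd p θ a⌋₊ : ℝ) = q := ⟨_, rfl⟩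
    rw [hq] at a1 a2 b1 b2
    rw [dd_eq p hp] at a1 a2 b1 b2
    by_cases hc : (p : ℝ) * θ ≤ kk p θ a
    · have hc' := h2.1 hc
      rw [abs_of_nonneg (sub_nonneg.2 hc)] at a1 a2
      rw [abs_of_nonneg (sub_nonneg.2 hc')] at b1 b2
      rw [abs_lt]
      constructor <;> linarith
    · have hc' : ¬ (p : ℝ) * θ ≤ kk p θ b := fun h3 => hc (h2.2 h3)
      push Not at hc hc'
      rw [abs_of_neg (sub_neg.2 hc)] at a1 a2
      rw [abs_of_neg (sub_neg.2 hc')] at b1 b2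
      rw [abs_lt]
      constructor <;> linarith
  have h3 : |kk p θ a - kk p θ b| < 1 := by exact_mod_cast key
  rw [Int.abs_lt_one_iff] at h3
  exact sub_eq_zero.1 h3

lemma sum_group (p : ℕ) (hp : 0 < p) (θ : ℝ) (A : Finset ℕ) (hA : A ⊆ range p) (I : Finset ℕ)
    (hI : ∀ a ∈ A, ⌊dd p θ a⌋₊ ∈ I) (F : ℕ → ℝ) (hF : ∀ s, 0 ≤ F s) :
    ∑ a ∈ A, F ⌊dd p θ a⌋₊ ≤ 2 * ∑ s ∈ I, F s := by
  classical
  have h1 : ∑ a ∈ A, F ⌊dd p θ a⌋₊ = ∑ x ∈ A.image (sg p θ), F x.1 := by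
    rw [Finset.sum_image]
    · rfl
    · exact (sg_inj p hp θ).mono (by exact_mod_cast hA)
  rw [h1]
  calc ∑ x ∈ A.image (sg p θ), F x.1 ≤ ∑ x ∈ I ×ˢ (Finset.univ : Finset Bool), F x.1 := by
        refine Finset.sum_le_sum_of_subset_of_nonneg ?_ fun x _ _ => hF x.1
        intro x hx
        obtain ⟨a, ha, rfl⟩ := Finset.mem_image.1 hx
        exact Finset.mem_product.2 ⟨hI a ha, Finset.mem_univ _⟩
    _ = 2 * ∑ s ∈ I, F s := by
        rw [Finset.sum_product, Finset.mul_sum]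
        refine Finset.sum_congr rfl fun s _ => ?_
        rw [Fintype.sum_bool]
        ring

lemma sum_head (N : ℕ) (B : ℝ) (hB : 1 ≤ B) (hN : N = ⌊B⌋₊) :
    ∑ s ∈ range (N + 1), 1 / max 1 (s : ℝ) ≤ 2 + Real.log B := by
  rw [Finset.sum_range_succ', Nat.cast_zero, max_eq_left zero_le_one]
  have h1 := harmonic_floor_le_one_add_log B hB
  rw [← hN] at h1
  have h2 : ∑ k ∈ range N, 1 / max 1 ((k + 1 : ℕ) : ℝ) = ((harmonic N : ℚ) : ℝ) := by
    unfold harmonic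
    push_cast
    refine Finset.sum_congr rfl fun k _ => ?_
    rw [max_eq_right (by have : (0 : ℝ) ≤ k := Nat.cast_nonneg k
                         linarith), one_div]
  rw [h2]
  linarith

theorem pf_LOG : T_LOG := by
  classical
  intro p θ h τ Z B hp hτ hZ hB hh hs
  have hB0 : 0 < B := by linarith
  set N : ℕ := ⌊B⌋₊ with hN
  set σ : ℕ → ℕ := fun a => ⌊dd p θ a⌋₊ with hσ
  have hker : ∀ a, max 1 ((σ a : ℕ) : ℝ) ≤ max 1 ((p : ℝ) * nd ((a : ℝ) / p - θ)) := fun a =>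
    max_le_max le_rfl (Nat.floor_le (dd_nonneg p θ a))
  have hpos : ∀ a, 0 < max 1 ((σ a : ℕ) : ℝ) := fun a => lt_of_lt_of_le one_pos (le_max_left _ _)
  have hterm : ∀ a ∈ range p, h a / max 1 ((p : ℝ) * nd ((a : ℝ) / p - θ)) ≤
      h a / max 1 ((σ a : ℕ) : ℝ) := fun a ha =>
    div_le_div_of_nonneg_left (hh a ha).1 (hpos a) (hker a)
  refine (Finset.sum_le_sum hterm).trans ?_
  rw [← Finset.sum_filter_add_sum_filter_not (range p) (fun a => σ a ≤ N)]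
  refine add_le_add ?_ ?_
  · -- the head
    have h1 : ∀ a ∈ (range p).filter (fun a => σ a ≤ N), h a / max 1 ((σ a : ℕ) : ℝ) ≤
        τ * (1 / max 1 ((σ a : ℕ) : ℝ)) := by
      intro a ha
      rw [mul_one_div]
      exact div_le_div_of_nonneg_right (hh a (Finset.mem_filter.1 ha).1).2 (hpos a).le
    refine (Finset.sum_le_sum h1).trans ?_
    rw [← Finset.mul_sum]
    refine mul_le_mul_of_nonneg_left ?_ hτ
    have h2 := sum_group p hp θ ((range p).filter (fun a => σ a ≤ N)) (Finset.filter_subset _ _)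
      (range (N + 1)) (fun a ha => by
        rw [Finset.mem_range]
        exact Nat.lt_succ_of_le (Finset.mem_filter.1 ha).2)
      (fun s => 1 / max 1 (s : ℝ)) (fun s => by positivity)
    have h3 := sum_head N B hB hN
    have h4 : 0 ≤ Real.log B := Real.log_nonneg hB
    calc _ ≤ 2 * ∑ s ∈ range (N + 1), 1 / max 1 (s : ℝ) := h2
      _ ≤ 2 * (2 + Real.log B) := by linarith
      _ ≤ 6 + 4 * Real.log B := by linarith
  · -- the tail
    set A2 := (range p).filter (fun a => ¬ σ a ≤ N) with hA2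
    have hN1 : B < N + 1 := Nat.lt_floor_add_one B
    obtain ⟨M, hM⟩ : ∃ M : ℕ, ∀ a ∈ A2, σ a < M := by
      refine ⟨A2.sup σ + 1, fun a ha => Nat.lt_succ_of_le (Finset.le_sup ha)⟩
    have h2 := sum_group p hp θ A2 (Finset.filter_subset _ _)
      (Finset.Ioo N M) (fun a ha => by
        rw [Finset.mem_Ioo]
        exact ⟨not_le.1 (Finset.mem_filter.1 ha).2, hM a ha⟩)
      (fun s => ((s : ℝ) ^ 2)⁻¹) (fun s => by positivity)
    have h3 : ∑ s ∈ Finset.Ioo N M, ((s : ℝ) ^ 2)⁻¹ ≤ 2 / ((N : ℝ) + 1) := sum_Ioo_inv_sq_le N M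
    have h4 : 2 / ((N : ℝ) + 1) ≤ 2 / B := div_le_div_of_nonneg_left (by norm_num) hB0 hN1.le
    have h5 : ∀ a ∈ A2, h a / max 1 ((σ a : ℕ) : ℝ) ≤ h a * ((σ a : ℕ) : ℝ)⁻¹ := by
      intro a ha
      rw [div_eq_mul_inv]
      have hσN : N < σ a := not_le.1 (Finset.mem_filter.1 ha).2
      have hσ0 : (0 : ℝ) < σ a := by exact_mod_cast (Nat.zero_le N).trans_lt hσN
      refine mul_le_mul_of_nonneg_left ?_ (hh a (Finset.mem_filter.1 ha).1).1
      exact inv_anti₀ hσ0 (le_max_right _ _)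
    refine (Finset.sum_le_sum h5).trans ?_
    refine (Real.sum_mul_le_sqrt_mul_sqrt A2 h (fun a => ((σ a : ℕ) : ℝ)⁻¹)).trans ?_
    have h6 : √(∑ a ∈ A2, h a ^ 2) ≤ Z := by
      rw [← Real.sqrt_sq hZ]
      refine Real.sqrt_le_sqrt (le_trans ?_ hs)
      exact Finset.sum_le_sum_of_subset_of_nonneg (Finset.filter_subset _ _)
        fun a _ _ => sq_nonneg _
    have h7 : √(∑ a ∈ A2, (((σ a : ℕ) : ℝ)⁻¹) ^ 2) ≤ 2 / √B := by
      have h8 : ∑ a ∈ A2, (((σ a : ℕ) : ℝ)⁻¹) ^ 2 ≤ 2 * (2 / B) := by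
        have h9 : ∀ a ∈ A2, (((σ a : ℕ) : ℝ)⁻¹) ^ 2 = (((σ a : ℕ) : ℝ) ^ 2)⁻¹ := fun a _ => by
          rw [inv_pow]
        rw [Finset.sum_congr rfl h9]
        calc _ ≤ 2 * ∑ s ∈ Finset.Ioo N M, ((s : ℝ) ^ 2)⁻¹ := h2
          _ ≤ 2 * (2 / B) := by linarith
      have h10 : (2 / √B) = √(2 * (2 / B)) := by
        have e1 : 2 * (2 / B) = (2 : ℝ) ^ 2 / B := by ring
        rw [e1, Real.sqrt_div (by positivity), Real.sqrt_sq (by norm_num)]
      rw [h10]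
      exact Real.sqrt_le_sqrt h8
    calc √(∑ a ∈ A2, h a ^ 2) * √(∑ a ∈ A2, (((σ a : ℕ) : ℝ)⁻¹) ^ 2) ≤ Z * (2 / √B) :=
          mul_le_mul h6 h7 (Real.sqrt_nonneg _) hZ
      _ ≤ 4 * Z / √B := by
          have h11 : 0 ≤ Z / √B := div_nonneg hZ (Real.sqrt_nonneg _)
          have e1 : Z * (2 / √B) = 2 * (Z / √B) := by ring
          have e2 : 4 * Z / √B = 4 * (Z / √B) := by ring
          rw [e1, e2]
          linarith

end Pool.Agent.H89.BOU
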