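import Pool.Agent.H31.BOU.Targets2

/-!
# MP_352bb5_an, row MON: from a node to its children and back
-/

set_option autoImplicit false

namespace Pool.Agent.H89.BOU

open Finset Pool.Agent.H31.BOU

lemma mon_near (C i : ℕ) (m : ℤ) (j : ℕ) (κ c : ℤ) (h0 : 0 ≤ c) (h2 : c ≤ 2)
    (h : near C i m (j + 1) κ) : near C i m j (2 * κ + c) := by
  obtain ⟨h3, h4, h5⟩ := h
  have hP : (0 : ℤ) < 2 ^ j := by positivity
  rw [pow_succ] at h4 h5
  refine ⟨by omega, ?_, ?_⟩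
  · nlinarith [mul_nonneg h0 hP.le]
  · nlinarith [mul_le_mul_of_nonneg_right h2 hP.le]

lemma mon_long (r i : ℕ) (m : ℤ) (j : ℕ) (κ c : ℤ) (hr : 2 ≤ r) (h0 : 0 ≤ c) (h2 : c ≤ 2)
    (h : long r i m (j + 1) κ) : long r i m j (2 * κ + c) := by
  obtain ⟨h4, h5⟩ := h
  have hP : (0 : ℤ) < 2 ^ j := by positivity
  have hr' : (2 : ℤ) ≤ r := by exact_mod_cast hr
  rw [pow_succ] at h4 h5
  refine ⟨?_, ?_⟩
  · nlinarith [mul_nonneg h0 hP.le, mul_nonneg (by linarith : (0 : ℤ) ≤ r) hP.le]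
  · nlinarith [mul_le_mul_of_nonneg_right (h2.trans hr') hP.le]

lemma mon_meets (r i : ℕ) (m : ℤ) (j : ℕ) (κ : ℤ) (C : ℕ) (hr : 2 ≤ r) (hC : r + 2 ≤ C) :
    (long r i m j κ → j < i ∧ meets r i m j κ) ∧ (meets r i m j κ → near C i m j κ) := by
  have hP : (0 : ℤ) < 2 ^ j := by positivity
  have hI : (0 : ℤ) < 2 ^ i := by positivity
  have hr' : (2 : ℤ) ≤ r := by exact_mod_cast hr
  have hC' : (r : ℤ) + 2 ≤ C := by exact_mod_cast hC
  refine ⟨fun h => ?_, fun h => ?_⟩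
  · obtain ⟨h4, h5⟩ := h
    have h6 : (r : ℤ) * 2 ^ j ≥ 2 * 2 ^ j := mul_le_mul_of_nonneg_right hr' hP.le
    have h7 : (2 : ℤ) ^ j < 2 ^ i := by nlinarith
    have h8 : j < i := (pow_lt_pow_iff_right₀ (by norm_num : (1 : ℤ) < 2)).1 h7
    refine ⟨h8, h8.le, ?_, ?_⟩
    · nlinarith
    · nlinarith
  · obtain ⟨h3, h4, h5⟩ := h
    have h6 : (2 : ℤ) ^ j ≤ 2 ^ i := pow_le_pow_right₀ (by norm_num) h3
    have h7 : (r : ℤ) * 2 ^ j ≤ r * 2 ^ i := mul_le_mul_of_nonneg_left h6 (by linarith)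
    have h8 : ((r : ℤ) + 2) * 2 ^ i ≤ C * 2 ^ i := mul_le_mul_of_nonneg_right hC' hI.le
    refine ⟨h3, ?_, ?_⟩
    · nlinarith
    · nlinarith

theorem pf_MON : T_MON := by
  classical
  refine ⟨mon_near, fun r i m j κ c hr h0 h2 h => mon_long r i m j κ c hr h0 h2 h,
    mon_meets, ?_, ?_⟩
  · intro ι θ _ _ C q Q P j κ c h0 h2 hG
    refine ⟨?_, ?_, ?_, ?_⟩
    · refine le_trans ?_ hG.gn
      refine Nat.cast_le.2 (Finset.card_le_card fun u hu => ?_)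
      rw [Finset.mem_filter] at hu ⊢
      exact ⟨hu.1, mon_near _ _ _ _ _ _ h0 h2 hu.2⟩
    · refine le_trans ?_ hG.gd
      refine Finset.sum_le_sum_of_subset_of_nonneg (fun u hu => ?_) fun u _ _ => sq_nonneg _
      rw [Finset.mem_filter] at hu ⊢
      exact ⟨hu.1, mon_near _ _ _ _ _ _ h0 h2 hu.2⟩
    · refine le_trans ?_ hG.fn
      refine Nat.cast_le.2 (Finset.card_le_card fun u hu => ?_)
      rw [Finset.mem_filter] at hu ⊢
      exact ⟨hu.1, mon_near _ _ _ _ _ _ h0 h2 hu.2⟩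
    · refine le_trans ?_ hG.fd
      refine Finset.sum_le_sum_of_subset_of_nonneg (fun u hu => ?_) fun u _ _ => sq_nonneg _
      rw [Finset.mem_filter] at hu ⊢
      exact ⟨hu.1, mon_near _ _ _ _ _ _ h0 h2 hu.2⟩
  · intro θ _ C x Q β j κ c hx h0 h2 hf u hu
    refine lt_of_le_of_lt ?_ (hf u (mon_near _ _ _ _ _ _ h0 h2 hu))
    refine div_le_div_of_nonneg_left hx (by positivity) ?_
    exact pow_le_pow_right₀ (by norm_num) (Nat.le_succ j)

end Pool.Agent.H89.BOU
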